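import Pool.Agent.W555.ST.Defs

/-! # Module 2a of the Steinhaus surface project: the radial body is convex -/

set_option autoImplicit false

open Set Filter Topology Pool.Agent.W555.ST

namespace Pool.Agent.W327.ST

/-- uniform bounds for a smooth function on the unit sphere -/
theorem consts (h : E → ℝ) (hh : ContDiff ℝ (⊤ : ℕ∞) h) : ∃ C : ℝ, 1 ≤ C ∧
    (∀ x ∈ S, |h x| ≤ C) ∧ (∀ x ∈ S, ‖fderiv ℝ h x‖ ≤ C) ∧
    (∀ x ∈ S, ∀ y ∈ S, |h y - h x| ≤ C * ‖y - x‖) ∧
    (∀ x ∈ S, ∀ y ∈ S, |h y - h x - fderiv ℝ h x (y - x)| ≤ C * ‖y - x‖ ^ 2) := by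
  have hcomp : IsCompact (Metric.closedBall (0 : E) 1) := isCompact_closedBall 0 1
  have hd : Differentiable ℝ h := hh.differentiable (by simp)
  have h1 : ContDiff ℝ (1 : ℕ∞) (fderiv ℝ h) := hh.fderiv_right (by norm_cast)
  have hd1 : Differentiable ℝ (fderiv ℝ h) := h1.differentiable (by simp)
  have hc1 : Continuous (fderiv ℝ h) := hd1.continuous
  have hc2 : Continuous (fderiv ℝ (fderiv ℝ h)) := h1.continuous_fderiv (by simp)
  obtain ⟨C0, h0⟩ := hcomp.exists_bound_of_continuousOn (f := h) hd.continuous.continuousOn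
  obtain ⟨C1, h1'⟩ := hcomp.exists_bound_of_continuousOn (f := fderiv ℝ h) hc1.continuousOn
  obtain ⟨C2, h2'⟩ := hcomp.exists_bound_of_continuousOn (f := fderiv ℝ (fderiv ℝ h)) hc2.continuousOn
  have hS : ∀ x ∈ S, x ∈ Metric.closedBall (0 : E) 1 := fun x hx => by
    simp only [S, mem_ofPred_eq] at hx
    simp [hx]
  have hconv : Convex ℝ (Metric.closedBall (0 : E) 1) := convex_closedBall 0 1
  have hlip1 : ∀ x ∈ Metric.closedBall (0 : E) 1, ∀ y ∈ Metric.closedBall (0 : E) 1,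
      ‖fderiv ℝ h y - fderiv ℝ h x‖ ≤ C2 * ‖y - x‖ := fun x hx y hy =>
    hconv.norm_image_sub_le_of_norm_fderiv_le (fun z _ => hd1 z) (fun z hz => h2' z hz) hx hy
  refine ⟨max 1 (max C0 (max C1 C2)), le_max_left _ _, ?_, ?_, ?_, ?_⟩
  · intro x hx
    exact (h0 x (hS x hx)).trans ((le_max_left _ _).trans (le_max_right _ _))
  · intro x hx
    exact (h1' x (hS x hx)).trans
      ((le_max_left _ _).trans ((le_max_right _ _).trans (le_max_right _ _)))
  · intro x hx y hy
    have := hconv.norm_image_sub_le_of_norm_fderiv_le (fun z _ => hd z) (fun z hz => h1' z hz)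
      (hS x hx) (hS y hy)
    refine (this.trans ?_)
    gcongr
    exact (le_max_left _ _).trans ((le_max_right _ _).trans (le_max_right _ _))
  · intro x hx y hy
    have hseg : segment ℝ x y ⊆ Metric.closedBall (0 : E) 1 :=
      hconv.segment_subset (hS x hx) (hS y hy)
    have := (convex_segment x y).norm_image_sub_le_of_norm_fderiv_le' (f := h)
      (φ := fderiv ℝ h x) (C := C2 * ‖y - x‖) (fun z _ => hd z) (fun z hz => by
        refine (hlip1 x (hS x hx) z (hseg hz)).trans ?_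
        have hC2 : 0 ≤ C2 := (norm_nonneg _).trans (h2' 0 (by simp))
        gcongr
        rw [← dist_eq_norm, ← dist_eq_norm]
        obtain ⟨t, ht, rfl⟩ := segment_eq_image_lineMap ℝ x y ▸ hz
        rw [dist_lineMap_left, Real.norm_eq_abs, abs_of_nonneg ht.1, dist_comm x y]
        exact mul_le_of_le_one_left dist_nonneg ht.2)
      (left_mem_segment ℝ x y) (right_mem_segment ℝ x y)
    rw [Real.norm_eq_abs] at this
    refine this.trans ?_
    rw [mul_assoc, ← sq]
    gcongr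
    exact (le_max_right _ _).trans ((le_max_right _ _).trans (le_max_right _ _))

/-- the (scaled) supporting functional at `Y h ε x` -/
noncomputable def ell (h : E → ℝ) (ε : ℝ) (x y : E) : ℝ :=
  (1 + ε * h x) * inner ℝ x y - ε * (fderiv ℝ h x y - fderiv ℝ h x x * inner ℝ x y)

theorem ell_lin (h : E → ℝ) (ε : ℝ) (x : E) : IsLinearMap ℝ (ell h ε x) where
  map_add y z := by simp only [ell, inner_add_right, map_add]; ring
  map_smul c y := by simp only [ell, inner_smul_right, map_smul, smul_eq_mul]; ring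

theorem ell_self (h : E → ℝ) (ε : ℝ) (x : E) (hx : x ∈ S) : ell h ε x x = 1 + ε * h x := by
  have : inner ℝ x x = (1 : ℝ) := by
    rw [real_inner_self_eq_norm_sq, show ‖x‖ = 1 from hx]; norm_num
  simp only [ell, this]; ring

theorem key (h : E → ℝ) (C : ℝ) (hC : 1 ≤ C)
    (hb : ∀ x ∈ S, |h x| ≤ C) (hg : ∀ x ∈ S, ‖fderiv ℝ h x‖ ≤ C)
    (hl : ∀ x ∈ S, ∀ y ∈ S, |h y - h x| ≤ C * ‖y - x‖)
    (hT : ∀ x ∈ S, ∀ y ∈ S, |h y - h x - fderiv ℝ h x (y - x)| ≤ C * ‖y - x‖ ^ 2)
    (ε : ℝ) (hε : 0 < ε) (hε' : ε < 1 / (16 * C)) (x : E) (hx : x ∈ S) (y : E) (hy : y ∈ S) :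
    ell h ε x (Y h ε y) ≤ (1 + ε * h x) ^ 2 := by
  set d := ‖y - x‖ with hd
  have hd0 : 0 ≤ d := norm_nonneg _
  have hin : inner ℝ x y = 1 - d ^ 2 / 2 := by
    have h1 := norm_sub_sq_real y x
    rw [show ‖y‖ = 1 from hy, show ‖x‖ = 1 from hx, real_inner_comm] at h1
    rw [hd]; linarith
  set φ := fderiv ℝ h x with hφ
  have e1 : φ y = φ (y - x) + φ x := by rw [map_sub]; ring
  have hεC : ε * C < 1 / 16 := by
    rw [lt_div_iff₀ (by positivity)] at hε'
    linarith
  have hax := hb x hx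
  have hay := hb y hy
  have hT' := hT x hx y hy
  have hl' := hl x hx y hy
  have hgx : |φ x| ≤ C := by
    have := φ.le_opNorm x
    rw [show ‖x‖ = 1 from hx, mul_one] at this
    exact this.trans (hg x hx)
  have hgd : |φ (y - x)| ≤ C * d := by
    have := φ.le_opNorm (y - x)
    refine this.trans ?_
    gcongr
    exact hg x hx
  rw [← hφ, ← hd] at hT'
  rw [← hd] at hl'
  simp only [ell, Y, inner_smul_right, map_smul, smul_eq_mul, hin, ← hφ, e1]
  set a := h x
  set b := h y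
  set p := φ x
  set q := φ (y - x)
  have hC0 : 0 < C := by linarith
  -- everything in terms of a b p q d
  have hr1 : |ε * a| ≤ 1 / 16 := by
    rw [abs_mul, abs_of_pos hε]
    nlinarith [abs_nonneg a]
  have hr2 : |ε * b| ≤ 1 / 16 := by
    rw [abs_mul, abs_of_pos hε]
    nlinarith [abs_nonneg b]
  have hp : |ε * p| ≤ 1 / 16 := by
    rw [abs_mul, abs_of_pos hε]
    nlinarith [abs_nonneg p]
  have hT2 : |ε * (b - a - q)| ≤ 1 / 16 * d ^ 2 := by
    rw [abs_mul, abs_of_pos hε]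
    calc ε * |b - a - q| ≤ ε * (C * d ^ 2) := by gcongr
      _ = (ε * C) * d ^ 2 := by ring
      _ ≤ 1 / 16 * d ^ 2 := by gcongr
  have hl2 : |ε * (b - a)| ≤ 1 / 16 * d := by
    rw [abs_mul, abs_of_pos hε]
    calc ε * |b - a| ≤ ε * (C * d) := by gcongr
      _ = (ε * C) * d := by ring
      _ ≤ 1 / 16 * d := by gcongr
  have hq2 : |ε * q| ≤ 1 / 16 * d := by
    rw [abs_mul, abs_of_pos hε]
    calc ε * |q| ≤ ε * (C * d) := by gcongr
      _ = (ε * C) * d := by ring
      _ ≤ 1 / 16 * d := by gcongr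
  have hprod : |ε * (b - a) * (ε * q)| ≤ 1 / 256 * d ^ 2 := by
    rw [abs_mul]
    calc |ε * (b - a)| * |ε * q| ≤ (1 / 16 * d) * (1 / 16 * d) := by gcongr
      _ = _ := by ring
  -- identity
  have hid : (1 + ε * a) ^ 2 - ((1 + ε * a) * ((1 + ε * b) * (1 - d ^ 2 / 2)) -
      ε * ((1 + ε * b) * (q + p) - p * ((1 + ε * b) * (1 - d ^ 2 / 2)))) =
      -(1 + ε * a) * (ε * (b - a - q)) + ε * (b - a) * (ε * q)
      + (1 + ε * b) * (ε * p) * (d ^ 2 / 2) + (1 + ε * a) * (1 + ε * b) * (d ^ 2 / 2) := by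
    ring
  have hA : |(1 + ε * a) * (ε * (b - a - q))| ≤ 17 / 16 * (1 / 16 * d ^ 2) := by
    rw [abs_mul]
    gcongr
    rw [abs_le] at hr1 ⊢
    constructor <;> linarith
  have hB : |(1 + ε * b) * (ε * p) * (d ^ 2 / 2)| ≤ 17 / 16 * (1 / 16) * (d ^ 2 / 2) := by
    rw [abs_mul, abs_mul, abs_of_nonneg (show 0 ≤ d ^ 2 / 2 by positivity)]
    gcongr
    rw [abs_le] at hr2 ⊢
    constructor <;> linarith
  have hD : 15 / 16 * (15 / 16) * (d ^ 2 / 2) ≤ (1 + ε * a) * (1 + ε * b) * (d ^ 2 / 2) := by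
    rw [abs_le] at hr1 hr2
    gcongr <;> linarith
  rw [abs_le] at hA hB hprod
  have hd2 : 0 ≤ d ^ 2 := by positivity
  nlinarith [hid, hA.1, hA.2, hB.1, hB.2, hD, hprod.1, hprod.2, hd2]

theorem body : BodyStmt := by
  intro h hh
  obtain ⟨C, hC, hb, hg, hl, hT⟩ := consts h hh
  refine ⟨1 / (16 * C), by positivity, fun ε hε hε' => ?_⟩
  have hρ : ∀ x ∈ S, 15 / 16 ≤ 1 + ε * h x := by
    intro x hx
    have h1 := hb x hx
    have hεC : ε * C < 1 / 16 := by
      rw [lt_div_iff₀ (by positivity)] at hε'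
      linarith
    have : |ε * h x| ≤ 1 / 16 := by
      rw [abs_mul, abs_of_pos hε]
      nlinarith [abs_nonneg (h x)]
    rw [abs_le] at this
    linarith
  have hkey := key h C hC hb hg hl hT ε hε hε'
  have hlinYself : ∀ x ∈ S, ell h ε x (Y h ε x) = (1 + ε * h x) ^ 2 := by
    intro x hx
    rw [Y, (ell_lin h ε x).map_smul, ell_self h ε x hx, smul_eq_mul]; ring
  -- the body as an intersection of half spaces
  have hcar : Kb h ε = ⋂ x ∈ S, {y | ell h ε x y ≤ (1 + ε * h x) ^ 2} := by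
    ext y
    simp only [Kb, mem_ofPred_eq, mem_iInter]
    constructor
    · rintro ⟨z, hz, t, ht, rfl⟩ x hx
      rw [(ell_lin h ε x).map_smul, smul_eq_mul]
      have := hkey x hx z hz
      nlinarith [ht.1, ht.2, sq_nonneg (1 + ε * h x)]
    · intro H
      by_cases hy : y = 0
      · obtain ⟨x, hx⟩ : ∃ x : E, x ∈ S := ⟨EuclideanSpace.single 0 1, by simp [S]⟩
        exact ⟨x, hx, 0, by simp, by simp [hy]⟩
      · have hn : 0 < ‖y‖ := norm_pos_iff.2 hy
        have hx : (‖y‖⁻¹ • y) ∈ S := by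
          simp only [S, mem_ofPred_eq, norm_smul, norm_inv, norm_norm]
          exact inv_mul_cancel₀ hn.ne'
        set x := ‖y‖⁻¹ • y with hxd
        have hyx : y = ‖y‖ • x := by rw [hxd, smul_smul, mul_inv_cancel₀ hn.ne', one_smul]
        have h1 := H x hx
        have h2 : ell h ε x y = ‖y‖ * (1 + ε * h x) := by
          conv_lhs => rw [hyx]
          rw [(ell_lin h ε x).map_smul, ell_self h ε x hx, smul_eq_mul]
        have h3 := hρ x hx
        refine ⟨x, hx, ‖y‖ / (1 + ε * h x), ⟨by positivity, ?_⟩, ?_⟩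
        · rw [div_le_one (by linarith)]
          rw [h2] at h1
          nlinarith
        · have h4 : (1 + ε * h x) ≠ 0 := by linarith
          rw [Y, smul_smul, div_mul_cancel₀ _ h4]
          exact hyx
  have hconv : Convex ℝ (Kb h ε) := by
    rw [hcar]
    exact convex_iInter fun x => convex_iInter fun _ => convex_halfSpace_le (ell_lin h ε x) _
  have hScomp : IsCompact S := by
    have : S = Metric.sphere (0 : E) 1 := by
      ext x; simp [S]
    rw [this]; exact isCompact_sphere 0 1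
  have hYc : Continuous (Y h ε) := by
    unfold Y
    have := hh.continuous
    fun_prop
  have hcompact : IsCompact (Kb h ε) := by
    have : Kb h ε = (fun q : ℝ × E => q.1 • Y h ε q.2) '' (Icc (0 : ℝ) 1 ×ˢ S) := by
      ext y
      simp only [Kb, mem_ofPred_eq, mem_image, mem_prod, Prod.exists]
      constructor
      · rintro ⟨x, hx, t, ht, rfl⟩
        exact ⟨t, x, ⟨ht, hx⟩, rfl⟩
      · rintro ⟨t, x, ⟨ht, hx⟩, rfl⟩
        exact ⟨x, hx, t, ht, rfl⟩
    rw [this]
    refine (isCompact_Icc.prod hScomp).image ?_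
    exact continuous_fst.smul (hYc.comp continuous_snd)
  have hball : Metric.ball (0 : E) (1 / 2) ⊆ Kb h ε := by
    intro y hy
    rw [mem_ball_zero_iff] at hy
    by_cases hy0 : y = 0
    · obtain ⟨x, hx⟩ : ∃ x : E, x ∈ S := ⟨EuclideanSpace.single 0 1, by simp [S]⟩
      exact ⟨x, hx, 0, by simp, by simp [hy0]⟩
    · have hn : 0 < ‖y‖ := norm_pos_iff.2 hy0
      have hx : (‖y‖⁻¹ • y) ∈ S := by
        simp only [S, mem_ofPred_eq, norm_smul, norm_inv, norm_norm]
        exact inv_mul_cancel₀ hn.ne'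
      set x := ‖y‖⁻¹ • y with hxd
      have hyx : y = ‖y‖ • x := by rw [hxd, smul_smul, mul_inv_cancel₀ hn.ne', one_smul]
      have h3 := hρ x hx
      have h4 : (1 + ε * h x) ≠ 0 := by linarith
      refine ⟨x, hx, ‖y‖ / (1 + ε * h x), ⟨by positivity, ?_⟩, ?_⟩
      · rw [div_le_one (by linarith)]; linarith
      · rw [Y, smul_smul, div_mul_cancel₀ _ h4]
        exact hyx
  have hint0 : (0 : E) ∈ interior (Kb h ε) :=
    mem_interior.2 ⟨_, hball, Metric.isOpen_ball, by simp⟩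
  refine ⟨hcompact, hconv, ⟨0, hint0⟩, ?_⟩
  rw [hcompact.isClosed.frontier_eq]
  ext y
  constructor
  · rintro ⟨⟨x, hx, t, ht, rfl⟩, hni⟩
    rcases eq_or_lt_of_le ht.2 with h1 | h1
    · exact ⟨x, hx, by rw [h1, one_smul]⟩
    · exfalso
      apply hni
      have hY : Y h ε x ∈ Kb h ε := ⟨x, hx, 1, by simp, by simp⟩
      have := hconv.combo_interior_self_mem_interior hint0 hY (a := 1 - t) (b := t)
        (by linarith) ht.1 (by ring)
      simpa using this
  · rintro ⟨x, hx, rfl⟩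
    refine ⟨⟨x, hx, 1, by simp, by simp⟩, fun hi => ?_⟩
    have hcont : Continuous fun s : ℝ => (1 + s) • Y h ε x := by fun_prop
    have hopen : IsOpen ((fun s : ℝ => (1 + s) • Y h ε x) ⁻¹' interior (Kb h ε)) :=
      isOpen_interior.preimage hcont
    have h0 : (0 : ℝ) ∈ (fun s : ℝ => (1 + s) • Y h ε x) ⁻¹' interior (Kb h ε) := by
      simpa using hi
    obtain ⟨δ, hδ, hsub⟩ := Metric.isOpen_iff.1 hopen 0 h0
    have h1 : (δ / 2) ∈ Metric.ball (0 : ℝ) δ := by
      rw [mem_ball_zero_iff, Real.norm_eq_abs, abs_of_pos (by linarith)]; linarith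
    have h2 : (1 + δ / 2) • Y h ε x ∈ Kb h ε := interior_subset (hsub h1)
    rw [hcar] at h2
    simp only [mem_iInter, mem_ofPred_eq] at h2
    have h3 := h2 x hx
    rw [(ell_lin h ε x).map_smul, hlinYself x hx, smul_eq_mul] at h3
    have h4 := hρ x hx
    nlinarith [mul_pos (show (0:ℝ) < 1 + ε * h x by linarith) (show (0:ℝ) < 1 + ε * h x by linarith)]

end Pool.Agent.W327.ST
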