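import Pool.Agent.W327.ST.MetB

/-! # Module 2b of the Steinhaus surface project: the interface `Met` -/

set_option autoImplicit false

open Set Filter Topology Pool.Agent.W555.ST

namespace Pool.Agent.W327.ST

open H244SH (idist IsCurve)

theorem met : MetStmt := by
  intro h hh hodd
  obtain ⟨C0, hC0, hb, hl, hR⟩ := consts2 h hh
  have hC6 : 6 * C0 ≤ 6 * C0 ^ 2 := by nlinarith
  have hC1 : C0 ≤ 6 * C0 ^ 2 := by nlinarith
  have hCsq : C0 ^ 2 ≤ 6 * C0 ^ 2 := by nlinarith [sq_nonneg C0]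
  refine ⟨6 * C0 ^ 2, ⟨by nlinarith, hodd, hh.continuous, fun x hx => (hb x hx).trans hC1,
    fun x y hx hy => (hl x y hx hy).trans (by gcongr)⟩, 1 / (16 * C0), by positivity,
    fun ε hε hε' K hK => ?_⟩
  have hS2 : ∀ x ∈ S, ‖x‖ ≤ 2 := fun x hx => by
    rw [show ‖x‖ = 1 from hx]; norm_num
  have g : Good h C0 ε := ⟨hC0, hε, by
    rw [lt_div_iff₀ (by positivity)] at hε'
    linarith, fun x hx => hb x (hS2 x hx), fun x hx y hy => hl x y (hS2 x hx) (hS2 y hy)⟩
  simp only [dd_eq]
  set A := frontier K with hA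
  have hYA : ∀ x ∈ S, Y h ε x ∈ A := fun x hx => by rw [hK]; exact ⟨x, hx, rfl⟩
  have hfin : ∀ x ∈ S, ∀ y ∈ S, idist A (Y h ε x) (Y h ε y) ≠ ⊤ := fun x hx y hy =>
    ne_top_of_le_ne_top ENNReal.ofReal_ne_top (g.up A hK hx hy)
  refine ⟨hfin, ?_⟩
  set D : E → E → ℝ := fun x y => (idist A (Y h ε x) (Y h ε y)).toReal with hD
  have hself : ∀ x ∈ S, D x x = 0 := fun x hx => by
    simp only [hD, idist_self A _ (hYA x hx), ENNReal.toReal_zero]
  have hsymm : ∀ x ∈ S, ∀ y ∈ S, D x y = D y x := fun x _ y _ => by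
    simp only [hD, idist_symm A (Y h ε x)]
  have htri : ∀ x ∈ S, ∀ y ∈ S, ∀ z ∈ S, D x z ≤ D x y + D y z := by
    intro x hx y hy z hz
    have h1 := H244SH.Tri.concat A (Y h ε x) (Y h ε y) (Y h ε z)
    have h2 := ENNReal.toReal_mono (ENNReal.add_ne_top.2 ⟨hfin x hx y hy, hfin y hy z hz⟩) h1
    rwa [ENNReal.toReal_add (hfin x hx y hy) (hfin y hy z hz)] at h2
  have hang0 : ∀ x y : E, 0 ≤ ang x y := fun x y => InnerProductGeometry.angle_nonneg x y
  have hangpi : ∀ x y : E, ang x y ≤ Real.pi := fun x y => InnerProductGeometry.angle_le_pi x y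
  have hup0 : ∀ x ∈ S, ∀ y ∈ S,
      D x y ≤ ang x y * (1 + ε * h x + C0 * ε * ang x y + (C0 * ε) ^ 2) := by
    intro x hx y hy
    have r := g.rho hx
    have := hang0 x y
    refine ENNReal.toReal_le_of_le_ofReal ?_ (g.up A hK hx hy)
    have : 0 ≤ C0 * ε * ang x y := by positivity
    have : 0 ≤ (C0 * ε) ^ 2 := by positivity
    apply mul_nonneg (hang0 x y); linarith
  have hup2 : ∀ x ∈ S, ∀ y ∈ S, D x y ≤ 2 * ang x y := by
    intro x hx y hy
    refine (hup0 x hx y hy).trans ?_
    have r := g.rho hx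
    have h1 := hang0 x y
    have h2 := hangpi x y
    have h3 := Real.pi_lt_d2
    have h4 := g.hεC
    have h5 : 0 ≤ ε * C0 := by positivity
    have h6 : C0 * ε * ang x y ≤ 1 / 4 := by nlinarith
    have h7 : (C0 * ε) ^ 2 ≤ 1 / 16 := by nlinarith
    rw [mul_comm 2 (ang x y)]
    gcongr
    linarith
  have hDle : ∀ x ∈ S, ∀ y ∈ S, ∀ z ∈ S, |D x y - D x z| ≤ D z y := by
    intro x hx y hy z hz
    rw [abs_le]
    have h1 := htri x hx z hz y hy
    have h2 := htri x hx y hy z hz
    rw [hsymm y hy z hz] at h2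
    constructor <;> linarith
  have hcont : ∀ x ∈ S, ContinuousOn (fun z => D x z) S := by
    intro x hx z0 hz0
    show Tendsto _ _ _
    rw [tendsto_iff_norm_sub_tendsto_zero]
    have hz0' : z0 ≠ 0 := by
      rintro rfl
      have : ‖(0 : E)‖ = 1 := hz0
      simp at this
    have ht : Tendsto (fun z => 2 * ang z0 z) (𝓝[S] z0) (𝓝 0) := by
      have h1 : ContinuousAt (fun z : E => ang z0 z) z0 := by
        have := InnerProductGeometry.continuousAt_angle (x := (z0, z0)) hz0' hz0'
        exact this.comp (f := fun z : E => (z0, z)) (by fun_prop)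
      have h2 : ang z0 z0 = 0 := InnerProductGeometry.angle_self hz0'
      have h3 : Tendsto (fun z => 2 * ang z0 z) (𝓝 z0) (𝓝 (2 * ang z0 z0)) :=
        tendsto_const_nhds.mul h1.tendsto
      rw [h2, mul_zero] at h3
      exact h3.mono_left nhdsWithin_le_nhds
    refine squeeze_zero' (Eventually.of_forall fun _ => norm_nonneg _) ?_ ht
    filter_upwards [self_mem_nhdsWithin] with z hz
    rw [Real.norm_eq_abs]
    exact (hDle x hx z hz z0 hz0).trans (hup2 z0 hz0 z hz)
  have hSsph : S = Metric.sphere (0 : E) 1 := by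
    ext x; simp [S]
  have hScomp : IsCompact S := by
    rw [hSsph]; exact isCompact_sphere 0 1
  refine ⟨hself, hsymm, htri, ?_, ?_, ?_, ?_⟩
  · -- mid
    intro x hx y hy s hs0 hs1
    set T : Set E := S ∩ (fun z => D x z) ⁻¹' {s} with hT
    have hTcomp : IsCompact T :=
      hScomp.of_isClosed_subset ((hcont x hx).preimage_isClosed_of_isClosed hScomp.isClosed
        isClosed_singleton) inter_subset_left
    have happ : ∀ δ : ℝ, 0 < δ → ∃ z ∈ T, D z y ≤ D x y - s + δ := by
      intro δ hδ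
      have h1 : idist A (Y h ε x) (Y h ε y) < ENNReal.ofReal (D x y + δ) := by
        rw [← ENNReal.ofReal_toReal (hfin x hx y hy)]
        refine (ENNReal.ofReal_lt_ofReal_iff ?_).2 ?_
        · have : 0 ≤ D x y := ENNReal.toReal_nonneg
          linarith
        · show D x y < D x y + δ
          linarith
      unfold idist at h1
      rw [iInf_lt_iff] at h1
      obtain ⟨γ, h2⟩ := h1
      rw [iInf_lt_iff] at h2
      obtain ⟨hγ, h3⟩ := h2
      set π : ℝ → E := fun t => ‖γ t‖⁻¹ • γ t with hπ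
      have hγY : ∀ t ∈ Icc (0 : ℝ) 1, π t ∈ S ∧ Y h ε (π t) = γ t := by
        intro t ht
        have := hγ.2.1 t ht
        rw [hK] at this
        obtain ⟨u, hu, hu2⟩ := this
        have h4 : π t = u := by
          simp only [hπ, ← hu2]; exact g.Y_norm hu
        rw [h4]; exact ⟨hu, hu2⟩
      have hπc : ContinuousOn π (Icc 0 1) := by
        refine ContinuousOn.smul (ContinuousOn.inv₀ hγ.1.norm ?_) hγ.1
        intro t ht h0
        have h5 := (hγY t ht).1
        rw [norm_eq_zero] at h0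
        simp only [hπ, h0, smul_zero] at h5
        have : ‖(0 : E)‖ = 1 := h5
        simp at this
      have hFc : ContinuousOn (fun t => D x (π t)) (Icc 0 1) :=
        (hcont x hx).comp hπc (fun t ht => (hγY t ht).1)
      have hπ0 : π 0 = x := by
        simp only [hπ, hγ.2.2.1]; exact g.Y_norm hx
      have hπ1 : π 1 = y := by
        simp only [hπ, hγ.2.2.2]; exact g.Y_norm hy
      have hivt := intermediate_value_Icc (zero_le_one' ℝ) hFc
      obtain ⟨t, ht, hts⟩ := hivt (show s ∈ Icc (D x (π 0)) (D x (π 1)) by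
        rw [hπ0, hπ1, hself x hx]; exact ⟨hs0, hs1⟩)
      obtain ⟨hzS, hzY⟩ := hγY t ht
      refine ⟨π t, ⟨hzS, hts⟩, ?_⟩
      have h6 := (split_le A _ _ γ hγ t ht).trans h3.le
      rw [← hzY] at h6
      have h7 := ENNReal.toReal_le_of_le_ofReal (by
        have : 0 ≤ D x y := ENNReal.toReal_nonneg
        linarith) h6
      rw [ENNReal.toReal_add (hfin x hx _ hzS) (hfin _ hzS y hy)] at h7
      have h8 : D x (π t) + D (π t) y ≤ D x y + δ := h7
      have h9 : D x (π t) = s := hts
      linarith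
    obtain ⟨z1, hz1, _⟩ := happ 1 one_pos
    have hcy : ContinuousOn (fun z => D z y) T := by
      have h1 : ContinuousOn (fun z => D y z) T := (hcont y hy).mono inter_subset_left
      exact h1.congr fun z hz => hsymm z hz.1 y hy
    obtain ⟨z, hz, hmin⟩ := hTcomp.exists_isMinOn ⟨z1, hz1⟩ hcy
    have hzs : D x z = s := hz.2
    refine ⟨z, hz.1, hzs, le_antisymm ?_ ?_⟩
    · refine le_of_forall_pos_le_add fun δ hδ => ?_
      obtain ⟨w, hw, hwy⟩ := happ δ hδ
      have : D z y ≤ D w y := hmin hw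
      linarith
    · have := htri x hx z hz.1 y hy
      show D x y - s ≤ D z y
      linarith
  · -- low
    intro x hx y hy
    have h1 := g.low hx hy
    have h2 : ‖Y h ε x - Y h ε y‖ ≤ D x y := by
      have h3 := edist_le_idist A (Y h ε x) (Y h ε y)
      have h4 := ENNReal.toReal_mono (hfin x hx y hy) h3
      rwa [← dist_edist, dist_eq_norm] at h4
    refine le_trans ?_ (h1.trans h2)
    gcongr
  · -- up
    intro x hx y hy
    refine (hup0 x hx y hy).trans ?_
    have h1 := hang0 x y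
    have h2 : (C0 * ε) ^ 2 ≤ 6 * C0 ^ 2 * ε ^ 2 := by
      rw [mul_pow]; gcongr
    gcongr
  · -- rot
    intro R τ hτ x hx y hy
    have hτ0 : 0 ≤ τ := (norm_nonneg _).trans (hτ x hx)
    have hRS : ∀ z ∈ S, R z ∈ S := fun z hz => by
      show ‖R z‖ = 1
      rw [R.norm_map]; exact hz
    have h1 := g.rot A hK R τ hτ (hR R τ hτ) hx hy
    have h2 := ENNReal.toReal_mono (ENNReal.mul_ne_top ENNReal.ofReal_ne_top (hfin x hx y hy)) h1
    rw [ENNReal.toReal_mul, ENNReal.toReal_ofReal (by positivity)] at h2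
    refine le_trans h2 ?_
    show (1 + 6 * C0 * ε * τ) * D x y ≤ (1 + 6 * C0 ^ 2 * ε * τ) * D x y
    have : 0 ≤ D x y := ENNReal.toReal_nonneg
    gcongr

end Pool.Agent.W327.ST
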