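import Pool.Agent.W555.ST.Defs
import Pool.Agent.H244R4.SH.TaskTri

/-! # Module 2b of the Steinhaus surface project, part A: the intrinsic distance in general,
elementary estimates -/

set_option autoImplicit false

open Set Filter Topology Pool.Agent.W555.ST

namespace Pool.Agent.W327.ST

open H244SH (idist IsCurve)

theorem dd_eq (K : Set E) (p q : E) : dd K p q = idist (frontier K) p q := by
  unfold dd idist
  refine iInf_congr fun γ => iInf_congr_Prop ?_ fun _ => rfl
  constructor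
  · rintro ⟨h1, h2, h3, h4⟩
    exact ⟨h1, h4, h2, h3⟩
  · rintro ⟨h1, h4, h2, h3⟩
    exact ⟨h1, h2, h3, h4⟩

theorem edist_le_idist (A : Set E) (p q : E) : edist p q ≤ idist A p q := by
  refine le_iInf₂ fun γ hγ => ?_
  have := eVariationOn.edist_le γ (s := Icc (0 : ℝ) 1) (x := 0) (y := 1) (by simp) (by simp)
  rwa [hγ.2.2.1, hγ.2.2.2] at this

theorem idist_symm (A : Set E) (p q : E) : idist A p q = idist A q p :=
  le_antisymm (H244SH.Tri.rev A p q) (H244SH.Tri.rev A q p)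

theorem idist_self (A : Set E) (p : E) (hp : p ∈ A) : idist A p p = 0 := by
  refine le_antisymm ?_ bot_le
  have hc : IsCurve A p p (fun _ => p) := ⟨continuousOn_const, fun _ _ => hp, rfl, rfl⟩
  refine (H244SH.Tri.idist_le hc).trans ?_
  rw [eVariationOn.constant_on]
  rintro x ⟨a, _, rfl⟩ y ⟨b, _, rfl⟩
  rfl

/-- a curve splits -/
theorem split_le (A : Set E) (p q : E) (γ : ℝ → E) (hγ : IsCurve A p q γ) (t : ℝ)
    (ht : t ∈ Icc (0 : ℝ) 1) :
    idist A p (γ t) + idist A (γ t) q ≤ eVariationOn γ (Icc 0 1) := by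
  obtain ⟨hc, hA, h0, h1⟩ := hγ
  have e1 := H244SH.Tri.reparam A p (γ t) γ 0 t ht.1 (hc.mono (Icc_subset_Icc le_rfl ht.2))
    (fun s hs => hA s ⟨hs.1, hs.2.trans ht.2⟩) h0 rfl
  have e2 := H244SH.Tri.reparam A (γ t) q γ t 1 ht.2 (hc.mono (Icc_subset_Icc ht.1 le_rfl))
    (fun s hs => hA s ⟨ht.1.trans hs.1, hs.2⟩) rfl h1
  have hadd := eVariationOn.Icc_add_Icc γ (s := univ) (a := 0) (b := t) (c := 1)
    ht.1 ht.2 (mem_univ _)
  simp only [univ_inter] at hadd
  rw [← hadd]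
  exact add_le_add e1 e2

/-- a Lipschitz self map of the surface does not increase distances too much -/
theorem idist_map (A : Set E) (f : E → E) (L : NNReal) (hL : L ≠ 0) (hf : LipschitzOnWith L f A)
    (hfA : ∀ z ∈ A, f z ∈ A) (p q : E) : idist A (f p) (f q) ≤ L * idist A p q := by
  unfold idist
  rw [ENNReal.mul_iInf_of_ne (by exact_mod_cast hL) ENNReal.coe_ne_top]
  refine le_iInf fun γ => ?_
  rw [ENNReal.mul_iInf_of_ne (by exact_mod_cast hL) ENNReal.coe_ne_top]
  refine le_iInf fun hγ => ?_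
  have hc : IsCurve A (f p) (f q) (f ∘ γ) := by
    refine ⟨hf.continuousOn.comp hγ.1 (fun t ht => hγ.2.1 t ht), fun t ht => hfA _ (hγ.2.1 t ht),
      ?_, ?_⟩
    · simp [hγ.2.2.1]
    · simp [hγ.2.2.2]
  refine (H244SH.Tri.idist_le hc).trans ?_
  exact hf.comp_eVariationOn_le (fun t ht => hγ.2.1 t ht)

/-- a Lipschitz arc -/
theorem idist_arc (A : Set E) (γ : ℝ → E) (θ : ℝ) (hθ : 0 ≤ θ) (L : NNReal)
    (hf : LipschitzOnWith L γ (Icc 0 θ)) (hA : ∀ t ∈ Icc (0 : ℝ) θ, γ t ∈ A) :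
    idist A (γ 0) (γ θ) ≤ L * ENNReal.ofReal θ := by
  refine (H244SH.Tri.reparam A _ _ γ 0 θ hθ hf.continuousOn hA rfl rfl).trans ?_
  have e1 := hf.comp_eVariationOn_le (g := fun t : ℝ => t) (s := Icc 0 θ) (fun t ht => ht)
  have e2 : eVariationOn (fun t : ℝ => t) (Icc 0 θ) ≤ ENNReal.ofReal (θ - 0) := by
    have hm : MonotoneOn (fun t : ℝ => t) (Icc 0 θ) := fun s _ t _ hst => hst
    have := hm.eVariationOn_le (a := 0) (b := θ) ⟨le_rfl, hθ⟩ ⟨hθ, le_rfl⟩
    rw [inter_self] at this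
    exact this
  rw [sub_zero] at e2
  refine e1.trans ?_
  gcongr

/-! ## elementary geometry -/

theorem inner_of_S {x y : E} (hx : x ∈ S) (hy : y ∈ S) :
    inner ℝ x y = 1 - ‖x - y‖ ^ 2 / 2 := by
  have h1 := norm_sub_sq_real x y
  rw [show ‖y‖ = 1 from hy, show ‖x‖ = 1 from hx] at h1
  linarith

theorem norm_sub_S {x y : E} (hx : x ∈ S) (hy : y ∈ S) (a b : ℝ) :
    ‖a • x - b • y‖ ^ 2 = (a - b) ^ 2 + a * b * ‖x - y‖ ^ 2 := by
  have h1 := norm_sub_sq_real (a • x) (b • y)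
  rw [inner_smul_left, inner_smul_right, inner_of_S hx hy, norm_smul, norm_smul,
    show ‖y‖ = 1 from hy, show ‖x‖ = 1 from hx, Real.norm_eq_abs, Real.norm_eq_abs] at h1
  rw [h1]
  simp only [mul_one, sq_abs, conj_trivial]
  ring

/-- a unit vector orthogonal to `x` -/
theorem exists_orth (x : E) : ∃ w ∈ S, inner ℝ x w = (0 : ℝ) := by
  by_cases h : x 0 = 0 ∧ x 1 = 0
  · refine ⟨EuclideanSpace.single 0 1, by simp [S], ?_⟩
    simp [EuclideanSpace.inner_eq_star_dotProduct, dotProduct, Fin.sum_univ_three, h.1]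
  · set w : E := !₂[-x 1, x 0, 0] with hw
    have hin : inner ℝ x w = (0 : ℝ) := by
      simp [hw, EuclideanSpace.inner_eq_star_dotProduct, dotProduct, Fin.sum_univ_three]
      ring
    have hw0 : w ≠ 0 := by
      intro h0
      apply h
      have e1 := congrArg (fun v : E => v 0) h0
      have e2 := congrArg (fun v : E => v 1) h0
      simp [hw] at e1 e2
      exact ⟨e2, e1⟩
    have hn : ‖w‖ ≠ 0 := norm_ne_zero_iff.2 hw0
    refine ⟨‖w‖⁻¹ • w, ?_, ?_⟩
    · simp only [S, mem_ofPred_eq, norm_smul, norm_inv, norm_norm]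
      exact inv_mul_cancel₀ hn
    · rw [inner_smul_right, hin, mul_zero]

theorem exists_arc {x y : E} (hx : x ∈ S) (hy : y ∈ S) :
    ∃ w ∈ S, inner ℝ x w = (0 : ℝ) ∧ y = Real.cos (ang x y) • x + Real.sin (ang x y) • w := by
  have hx1 : ‖x‖ = 1 := hx
  have hy1 : ‖y‖ = 1 := hy
  have hcos : Real.cos (ang x y) = inner ℝ x y := by
    rw [ang, InnerProductGeometry.cos_angle, hx1, hy1]; simp
  have hxx : inner ℝ x x = (1 : ℝ) := by
    rw [real_inner_self_eq_norm_sq, hx1]; norm_num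
  have hyy : inner ℝ y y = (1 : ℝ) := by
    rw [real_inner_self_eq_norm_sq, hy1]; norm_num
  have hsc := Real.sin_sq_add_cos_sq (ang x y)
  have hnorm : ‖y - Real.cos (ang x y) • x‖ ^ 2 = Real.sin (ang x y) ^ 2 := by
    rw [← real_inner_self_eq_norm_sq, inner_sub_left, inner_sub_right, inner_sub_right,
      inner_smul_left, inner_smul_left, inner_smul_right, inner_smul_right, hxx, hyy,
      real_inner_comm x y, ← hcos]
    simp only [conj_trivial]
    nlinarith
  by_cases hs : Real.sin (ang x y) = 0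
  · obtain ⟨w, hw, hxw⟩ := exists_orth x
    refine ⟨w, hw, hxw, ?_⟩
    rw [hs] at hnorm ⊢
    have : y - Real.cos (ang x y) • x = 0 := by
      rw [← norm_eq_zero]
      have h0 : ‖y - Real.cos (ang x y) • x‖ ^ 2 = 0 := by rw [hnorm]; norm_num
      exact pow_eq_zero_iff (two_ne_zero) |>.1 h0
    rw [zero_smul, add_zero]
    exact sub_eq_zero.1 this
  · have hsp : 0 ≤ Real.sin (ang x y) := InnerProductGeometry.sin_angle_nonneg x y
    have hn : ‖y - Real.cos (ang x y) • x‖ = Real.sin (ang x y) :=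
      (pow_left_inj₀ (norm_nonneg _) hsp two_ne_zero).1 hnorm
    refine ⟨(Real.sin (ang x y))⁻¹ • (y - Real.cos (ang x y) • x), ?_, ?_, ?_⟩
    · simp only [S, mem_ofPred_eq, norm_smul, hn, norm_inv, Real.norm_eq_abs, abs_of_nonneg hsp]
      exact inv_mul_cancel₀ hs
    · rw [inner_smul_right, inner_sub_right, inner_smul_right, hxx, ← hcos]
      ring
    · rw [smul_smul, mul_inv_cancel₀ hs, one_smul]
      abel

theorem arc_mem {x w : E} (hx : x ∈ S) (hw : w ∈ S) (hxw : inner ℝ x w = (0 : ℝ)) (t : ℝ) :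
    Real.cos t • x + Real.sin t • w ∈ S := by
  have h : ‖Real.cos t • x + Real.sin t • w‖ ^ 2 = 1 := by
    rw [norm_add_sq_real, inner_smul_left, inner_smul_right, hxw, norm_smul, norm_smul,
      show ‖x‖ = 1 from hx, show ‖w‖ = 1 from hw, Real.norm_eq_abs, Real.norm_eq_abs]
    simp only [mul_one, sq_abs, mul_zero, add_zero]
    exact Real.cos_sq_add_sin_sq t
  have h2 : ‖Real.cos t • x + Real.sin t • w‖ ^ 2 = 1 ^ 2 := by rw [h]; norm_num
  exact (pow_left_inj₀ (norm_nonneg _) zero_le_one two_ne_zero).1 h2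

theorem arc_dist {x w : E} (hx : x ∈ S) (hw : w ∈ S) (hxw : inner ℝ x w = (0 : ℝ)) (s t : ℝ) :
    ‖(Real.cos s • x + Real.sin s • w) - (Real.cos t • x + Real.sin t • w)‖ ^ 2 ≤ (s - t) ^ 2 := by
  have e : (Real.cos s • x + Real.sin s • w) - (Real.cos t • x + Real.sin t • w) =
      (Real.cos s - Real.cos t) • x + (Real.sin s - Real.sin t) • w := by
    rw [sub_smul, sub_smul]; abel
  rw [e, norm_add_sq_real, inner_smul_left, inner_smul_right, hxw, norm_smul, norm_smul,
      show ‖x‖ = 1 from hx, show ‖w‖ = 1 from hw, Real.norm_eq_abs, Real.norm_eq_abs]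
  simp only [mul_one, sq_abs, mul_zero, add_zero]
  have h1 := Real.one_sub_sq_div_two_le_cos (x := s - t)
  rw [Real.cos_sub] at h1
  have h2 := Real.sin_sq_add_cos_sq s
  have h3 := Real.sin_sq_add_cos_sq t
  nlinarith

end Pool.Agent.W327.ST
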