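import Pool.Agent.W327.ST.MetA

/-! # Module 2b of the Steinhaus surface project, part B: the interface -/

set_option autoImplicit false

open Set Filter Topology Pool.Agent.W555.ST

namespace Pool.Agent.W327.ST

open H244SH (idist IsCurve)

/-- uniform bounds -/
theorem consts2 (h : E → ℝ) (hh : ContDiff ℝ (⊤ : ℕ∞) h) : ∃ C : ℝ, 1 ≤ C ∧
    (∀ x, ‖x‖ ≤ 2 → |h x| ≤ C) ∧
    (∀ x y, ‖x‖ ≤ 2 → ‖y‖ ≤ 2 → |h x - h y| ≤ C * ‖x - y‖) ∧
    (∀ R : E →ₗᵢ[ℝ] E, ∀ τ : ℝ, (∀ x ∈ S, ‖R x - x‖ ≤ τ) → ∀ x ∈ S, ∀ y ∈ S,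
      |(h (R x) - h x) - (h (R y) - h y)| ≤ C * τ * ‖x - y‖) := by
  have hcomp : IsCompact (Metric.closedBall (0 : E) 2) := isCompact_closedBall 0 2
  have hd : Differentiable ℝ h := hh.differentiable (by simp)
  have h1 : ContDiff ℝ (1 : ℕ∞) (fderiv ℝ h) := hh.fderiv_right (by norm_cast)
  have hd1 : Differentiable ℝ (fderiv ℝ h) := h1.differentiable (by simp)
  have hc1 : Continuous (fderiv ℝ h) := hd1.continuous
  have hc2 : Continuous (fderiv ℝ (fderiv ℝ h)) := h1.continuous_fderiv (by simp)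
  obtain ⟨C0, h0⟩ := hcomp.exists_bound_of_continuousOn (f := h) hd.continuous.continuousOn
  obtain ⟨C1, h1'⟩ := hcomp.exists_bound_of_continuousOn (f := fderiv ℝ h) hc1.continuousOn
  obtain ⟨C2, h2'⟩ := hcomp.exists_bound_of_continuousOn (f := fderiv ℝ (fderiv ℝ h)) hc2.continuousOn
  have hB : ∀ x : E, ‖x‖ ≤ 2 → x ∈ Metric.closedBall (0 : E) 2 := fun x hx => by
    simpa using hx
  have hC1 : 0 ≤ C1 := (norm_nonneg _).trans (h1' 0 (by simp))
  have hC2 : 0 ≤ C2 := (norm_nonneg _).trans (h2' 0 (by simp))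
  have hconv : Convex ℝ (Metric.closedBall (0 : E) 2) := convex_closedBall 0 2
  have hlip1 : ∀ x ∈ Metric.closedBall (0 : E) 2, ∀ y ∈ Metric.closedBall (0 : E) 2,
      ‖fderiv ℝ h y - fderiv ℝ h x‖ ≤ C2 * ‖y - x‖ := fun x hx y hy =>
    hconv.norm_image_sub_le_of_norm_fderiv_le (fun z _ => hd1 z) (fun z hz => h2' z hz) hx hy
  refine ⟨max 1 (max C0 (C1 + C2)), le_max_left _ _, ?_, ?_, ?_⟩
  · intro x hx
    exact (h0 x (hB x hx)).trans ((le_max_left _ _).trans (le_max_right _ _))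
  · intro x y hx hy
    have := hconv.norm_image_sub_le_of_norm_fderiv_le (fun z _ => hd z) (fun z hz => h1' z hz)
      (hB y hy) (hB x hx)
    refine (this.trans ?_)
    gcongr
    have : C1 + C2 ≤ max 1 (max C0 (C1 + C2)) := (le_max_right _ _).trans (le_max_right _ _)
    linarith
  · intro R τ hR x hx y hy
    have hτ : 0 ≤ τ := (norm_nonneg _).trans (hR x hx)
    set B := Metric.closedBall (0 : E) 1 with hBdef
    have hRz : ∀ z : E, ‖R z - z‖ ≤ τ * ‖z‖ := by
      intro z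
      by_cases hz : z = 0
      · simp [hz]
      · have hn : ‖z‖ ≠ 0 := norm_ne_zero_iff.2 hz
        have hz1 : (‖z‖⁻¹ • z) ∈ S := by
          simp only [S, mem_ofPred_eq, norm_smul, norm_inv, norm_norm]
          exact inv_mul_cancel₀ hn
        have h3 := hR _ hz1
        rw [R.map_smul, ← smul_sub, norm_smul, norm_inv, norm_norm] at h3
        have h4 : ‖z‖ * (‖z‖⁻¹ * ‖R z - z‖) = ‖R z - z‖ := by
          rw [← mul_assoc, mul_inv_cancel₀ hn, one_mul]
        nlinarith [mul_le_mul_of_nonneg_left h3 (norm_nonneg z)]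
    have hop : ‖R.toContinuousLinearMap - ContinuousLinearMap.id ℝ E‖ ≤ τ := by
      refine ContinuousLinearMap.opNorm_le_bound _ hτ fun z => ?_
      simpa using hRz z
    have hk : ∀ z : E, HasFDerivAt (fun z => h (R z) - h z)
        ((fderiv ℝ h (R z)).comp R.toContinuousLinearMap - fderiv ℝ h z) z := by
      intro z
      have e1 : HasFDerivAt h (fderiv ℝ h (R z)) (R.toContinuousLinearMap z) := (hd _).hasFDerivAt
      have e2 := e1.comp z R.toContinuousLinearMap.hasFDerivAt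
      exact e2.sub (hd z).hasFDerivAt
    have hbound : ∀ z ∈ B,
        ‖(fderiv ℝ h (R z)).comp R.toContinuousLinearMap - fderiv ℝ h z‖ ≤ (C1 + C2) * τ := by
      intro z hz
      have hz1 : ‖z‖ ≤ 1 := by simpa [hBdef] using hz
      have e : (fderiv ℝ h (R z)).comp R.toContinuousLinearMap - fderiv ℝ h z =
          (fderiv ℝ h (R z)).comp (R.toContinuousLinearMap - ContinuousLinearMap.id ℝ E) +
            (fderiv ℝ h (R z) - fderiv ℝ h z) := by
        rw [ContinuousLinearMap.comp_sub, ContinuousLinearMap.comp_id]; abel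
      rw [e]
      refine (norm_add_le _ _).trans ?_
      have a1 : ‖(fderiv ℝ h (R z)).comp (R.toContinuousLinearMap - ContinuousLinearMap.id ℝ E)‖
          ≤ C1 * τ := by
        refine (ContinuousLinearMap.opNorm_comp_le _ _).trans ?_
        have := h1' (R z) (hB _ (by rw [R.norm_map]; linarith))
        gcongr
      have a2 : ‖fderiv ℝ h (R z) - fderiv ℝ h z‖ ≤ C2 * τ := by
        refine (hlip1 z (hB _ (by linarith)) (R z) (hB _ (by rw [R.norm_map]; linarith))).trans ?_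
        gcongr
        refine (hRz z).trans ?_
        nlinarith
      linarith
    have hSB : ∀ x ∈ S, x ∈ B := fun x hx => by
      simp only [S, mem_ofPred_eq] at hx
      simp [hBdef, hx]
    have := (convex_closedBall (0 : E) 1).norm_image_sub_le_of_norm_hasFDerivWithin_le
      (f := fun z => h (R z) - h z) (fun z _ => (hk z).hasFDerivWithinAt) hbound
      (hSB y hy) (hSB x hx)
    refine this.trans ?_
    gcongr
    exact (le_max_right _ _).trans (le_max_right _ _)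

/-- the algebraic inequality behind `rot` -/
theorem alg_rot (a b a' b' d k : ℝ) (ha : 15 / 16 ≤ a) (hb : 15 / 16 ≤ b) (ha' : 0 ≤ a')
    (hb' : 0 ≤ b') (hk : 0 ≤ k) (hd : 0 ≤ d) (f1 : |(a' - b') - (a - b)| ≤ k * d)
    (f2 : a' ≤ a * (1 + 2 * k)) (f3 : b' ≤ b * (1 + 2 * k)) :
    (a' - b') ^ 2 + a' * b' * d ^ 2 ≤ (1 + 6 * k) ^ 2 * ((a - b) ^ 2 + a * b * d ^ 2) := by
  have hab : 225 / 256 ≤ a * b := by nlinarith
  have hd2 : 0 ≤ d ^ 2 := sq_nonneg d
  have hk2 : 0 ≤ k ^ 2 := sq_nonneg k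
  have hab2 : 0 ≤ (a - b) ^ 2 := sq_nonneg _
  have hP : 0 ≤ a * b * d ^ 2 := mul_nonneg (by linarith) hd2
  have h1 : a' * b' ≤ (a * (1 + 2 * k)) * (b * (1 + 2 * k)) :=
    mul_le_mul f2 f3 hb' (le_trans ha' f2)
  have f4 : a' * b' * d ^ 2 ≤ (a * (1 + 2 * k)) * (b * (1 + 2 * k)) * d ^ 2 :=
    mul_le_mul_of_nonneg_right h1 hd2
  have g1 : |a' - b'| ≤ |a - b| + k * d := by
    calc |a' - b'| = |(a - b) + ((a' - b') - (a - b))| := by ring_nf
      _ ≤ |a - b| + |(a' - b') - (a - b)| := abs_add_le _ _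
      _ ≤ _ := by gcongr
  have g2 : (a' - b') ^ 2 ≤ (|a - b| + k * d) ^ 2 := by
    rw [← sq_abs (a' - b')]; gcongr
  have g3 : |a - b| ^ 2 = (a - b) ^ 2 := sq_abs _
  have g4 : 2 * (|a - b| * d) ≤ (a - b) ^ 2 + d ^ 2 := by
    rw [← g3]; linarith [sq_nonneg (|a - b| - d), show (|a - b| - d) ^ 2 =
      |a - b| ^ 2 - 2 * (|a - b| * d) + d ^ 2 by ring]
  have g5 : (|a - b| + k * d) ^ 2 = (a - b) ^ 2 + k * (2 * (|a - b| * d)) + k ^ 2 * d ^ 2 := by
    rw [← g3]; ring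
  have g6 := mul_le_mul_of_nonneg_left g4 hk
  have f5 : (a' - b') ^ 2 ≤ (a - b) ^ 2 * (1 + k) + (k + k ^ 2) * d ^ 2 := by
    rw [g5] at g2
    linarith
  have hkk : 0 ≤ k + k ^ 2 := by positivity
  have hdP : d ^ 2 ≤ 2 * (a * b * d ^ 2) := by nlinarith
  have f6 := mul_le_mul_of_nonneg_left hdP hkk
  have f7 : (a - b) ^ 2 * (1 + k) ≤ (1 + 6 * k) ^ 2 * (a - b) ^ 2 := by
    linarith [mul_nonneg hk hab2, mul_nonneg hk2 hab2]
  have f8 : (a * (1 + 2 * k)) * (b * (1 + 2 * k)) * d ^ 2 +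
      (k + k ^ 2) * (2 * (a * b * d ^ 2)) ≤ (1 + 6 * k) ^ 2 * (a * b * d ^ 2) := by
    linarith [mul_nonneg hk hP, mul_nonneg hk2 hP]
  linarith

section surf

variable (h : E → ℝ) (C ε : ℝ)

/-- hypotheses on the constants -/
structure Good : Prop where
  hC : 1 ≤ C
  hε : 0 < ε
  hεC : ε * C < 1 / 16
  hb : ∀ x ∈ S, |h x| ≤ C
  hl : ∀ x ∈ S, ∀ y ∈ S, |h x - h y| ≤ C * ‖x - y‖

variable {h C ε}

theorem Good.rho (g : Good h C ε) {x : E} (hx : x ∈ S) :
    15 / 16 ≤ 1 + ε * h x ∧ 1 + ε * h x ≤ 17 / 16 := by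
  have h1 := g.hb x hx
  have h2 := g.hεC
  have h3 := g.hε
  have h4 := g.hC
  have : |ε * h x| ≤ 1 / 16 := by
    rw [abs_mul, abs_of_pos h3]
    nlinarith [abs_nonneg (h x)]
  rw [abs_le] at this
  constructor <;> linarith

theorem Good.rho_sub (g : Good h C ε) {x y : E} (hx : x ∈ S) (hy : y ∈ S) :
    |(1 + ε * h x) - (1 + ε * h y)| ≤ ε * C * ‖x - y‖ := by
  have e : (1 + ε * h x) - (1 + ε * h y) = ε * (h x - h y) := by ring
  rw [e, abs_mul, abs_of_pos g.hε, mul_assoc]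
  have := g.hl x hx y hy
  have := g.hε
  gcongr

theorem Good.normY (_g : Good h C ε) {x y : E} (hx : x ∈ S) (hy : y ∈ S) :
    ‖Y h ε x - Y h ε y‖ ^ 2 = ((1 + ε * h x) - (1 + ε * h y)) ^ 2 +
      (1 + ε * h x) * (1 + ε * h y) * ‖x - y‖ ^ 2 := norm_sub_S hx hy _ _

/-- lower bound -/
theorem Good.low (g : Good h C ε) {x y : E} (hx : x ∈ S) (hy : y ∈ S) :
    ‖x - y‖ * (1 + ε * h x - C * ε * ‖x - y‖) ≤ ‖Y h ε x - Y h ε y‖ := by
  have h1 := g.normY hx hy
  have h2 := g.rho_sub hx hy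
  have r1 := g.rho hx
  have r2 := g.rho hy
  set m := 1 + ε * h x - C * ε * ‖x - y‖ with hm
  by_cases hm0 : m ≤ 0
  · have : ‖x - y‖ * m ≤ 0 := mul_nonpos_of_nonneg_of_nonpos (norm_nonneg _) hm0
    exact this.trans (norm_nonneg _)
  · push Not at hm0
    rw [abs_le] at h2
    have hCε : 0 ≤ C * ε * ‖x - y‖ := by
      have := g.hC; have := g.hε; positivity
    have m1 : m ≤ 1 + ε * h x := by linarith
    have m2 : m ≤ 1 + ε * h y := by nlinarith [h2.2]
    have m3 : m * m ≤ (1 + ε * h x) * (1 + ε * h y) := by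
      apply mul_le_mul m1 m2 hm0.le; linarith
    refine abs_le_of_sq_le_sq' ?_ (norm_nonneg _) |>.2
    rw [h1]
    nlinarith [sq_nonneg (‖x - y‖), sq_nonneg ((1 + ε * h x) - (1 + ε * h y)),
      mul_le_mul_of_nonneg_right m3 (sq_nonneg (‖x - y‖))]

/-- upper bound through the great arc -/
theorem Good.up (g : Good h C ε) (A : Set E) (hA : A = Y h ε '' S) {x y : E} (hx : x ∈ S)
    (hy : y ∈ S) : idist A (Y h ε x) (Y h ε y) ≤
      ENNReal.ofReal (ang x y * (1 + ε * h x + C * ε * ang x y + (C * ε) ^ 2)) := by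
  obtain ⟨w, hw, hxw, hyw⟩ := exists_arc hx hy
  set θ := ang x y with hθ
  have hθ0 : 0 ≤ θ := InnerProductGeometry.angle_nonneg x y
  set c : ℝ → E := fun t => Real.cos t • x + Real.sin t • w with hc
  have hcS : ∀ t, c t ∈ S := fun t => arc_mem hx hw hxw t
  have hcd : ∀ s t, ‖c s - c t‖ ^ 2 ≤ (s - t) ^ 2 := fun s t => arc_dist hx hw hxw s t
  have hc0 : c 0 = x := by simp [hc]
  have hcθ : c θ = y := by rw [hyw]
  have r1 := g.rho hx
  have hC := g.hC
  have hε := g.hε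
  have hεC := g.hεC
  set M := 1 + ε * h x + C * ε * θ with hM
  have hM0 : 15 / 16 ≤ M := by
    have : 0 ≤ C * ε * θ := by positivity
    linarith
  have hcM : ∀ t ∈ Icc (0 : ℝ) θ, 1 + ε * h (c t) ≤ M := by
    intro t ht
    have e1 := g.rho_sub (hcS t) hx
    have e2 : ‖c t - x‖ ≤ t := by
      have := hcd t 0
      rw [hc0, sub_zero] at this
      exact abs_le_of_sq_le_sq' this ht.1 |>.2
    rw [abs_le] at e1
    have e3 : ε * C * ‖c t - x‖ ≤ C * ε * θ := by
      have : ‖c t - x‖ ≤ θ := e2.trans ht.2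
      calc ε * C * ‖c t - x‖ ≤ ε * C * θ := by gcongr
        _ = C * ε * θ := by ring
    linarith [e1.2]
  set L := M + (C * ε) ^ 2 with hL
  have hL0 : 0 ≤ L := by positivity
  have hlip : LipschitzOnWith (Real.toNNReal L) (fun t => Y h ε (c t)) (Icc 0 θ) := by
    refine LipschitzOnWith.of_dist_le_mul fun s hs t ht => ?_
    rw [dist_eq_norm, Real.dist_eq, Real.coe_toNNReal L hL0]
    have e0 := g.normY (hcS s) (hcS t)
    have e1 := g.rho_sub (hcS s) (hcS t)
    have e2 := hcd s t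
    have e3 : ((1 + ε * h (c s)) - (1 + ε * h (c t))) ^ 2 ≤ (ε * C) ^ 2 * (s - t) ^ 2 := by
      rw [← sq_abs ((1 + ε * h (c s)) - (1 + ε * h (c t)))]
      calc _ ≤ (ε * C * ‖c s - c t‖) ^ 2 := by gcongr
        _ = (ε * C) ^ 2 * ‖c s - c t‖ ^ 2 := by ring
        _ ≤ _ := by gcongr
    have r1 := g.rho (hcS s)
    have r2 := g.rho (hcS t)
    have e4 : (1 + ε * h (c s)) * (1 + ε * h (c t)) * ‖c s - c t‖ ^ 2 ≤ M * M * (s - t) ^ 2 := by
      gcongr
      · linarith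
      · exact hcM s hs
      · exact hcM t ht
    refine abs_le_of_sq_le_sq' ?_ (by positivity) |>.2
    rw [e0, mul_pow, sq_abs]
    have e5 : (ε * C) ^ 2 + M * M ≤ L ^ 2 := by
      rw [hL]
      nlinarith [sq_nonneg (C * ε), sq_nonneg ((C * ε) ^ 2)]
    nlinarith [mul_le_mul_of_nonneg_right e5 (sq_nonneg (s - t))]
  have key := idist_arc A (fun t => Y h ε (c t)) θ hθ0 (Real.toNNReal L) hlip (by
    intro t _
    rw [hA]
    exact ⟨c t, hcS t, rfl⟩)
  simp only [hc0, hcθ] at key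
  refine key.trans (le_of_eq ?_)
  rw [mul_comm θ L, ENNReal.ofReal_mul hL0]
  rfl

theorem Good.Y_norm (g : Good h C ε) {x : E} (hx : x ∈ S) :
    ‖Y h ε x‖⁻¹ • Y h ε x = x := by
  have r := g.rho hx
  have : ‖Y h ε x‖ = 1 + ε * h x := by
    rw [Y, norm_smul, show ‖x‖ = 1 from hx, mul_one, Real.norm_eq_abs, abs_of_pos (by linarith)]
  rw [this, Y, smul_smul, inv_mul_cancel₀ (by linarith), one_smul]

/-- rotations -/
theorem Good.rot (g : Good h C ε) (A : Set E) (hA : A = Y h ε '' S) (R : E →ₗᵢ[ℝ] E) (τ : ℝ)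
    (hτ : ∀ x ∈ S, ‖R x - x‖ ≤ τ)
    (hR : ∀ x ∈ S, ∀ y ∈ S, |(h (R x) - h x) - (h (R y) - h y)| ≤ C * τ * ‖x - y‖) {x y : E}
    (hx : x ∈ S) (hy : y ∈ S) :
    idist A (Y h ε (R x)) (Y h ε (R y)) ≤
      ENNReal.ofReal (1 + 6 * C * ε * τ) * idist A (Y h ε x) (Y h ε y) := by
  have hC := g.hC
  have hε := g.hε
  have hτ0 : 0 ≤ τ := (norm_nonneg _).trans (hτ x hx)
  have hRS : ∀ z ∈ S, R z ∈ S := fun z hz => by
    show ‖R z‖ = 1
    rw [R.norm_map]; exact hz
  have hL0 : 0 ≤ 1 + 6 * C * ε * τ := by positivity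
  set f : E → E := fun z => Y h ε (R (‖z‖⁻¹ • z)) with hf
  have hfY : ∀ z ∈ S, f (Y h ε z) = Y h ε (R z) := fun z hz => by
    simp only [hf, g.Y_norm hz]
  have hlip : LipschitzOnWith (Real.toNNReal (1 + 6 * C * ε * τ)) f A := by
    refine LipschitzOnWith.of_dist_le_mul fun p hp q hq => ?_
    rw [hA] at hp hq
    obtain ⟨u, hu, rfl⟩ := hp
    obtain ⟨v, hv, rfl⟩ := hq
    rw [hfY u hu, hfY v hv, dist_eq_norm, dist_eq_norm, Real.coe_toNNReal _ hL0]
    refine abs_le_of_sq_le_sq' ?_ (by positivity) |>.2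
    rw [mul_pow, g.normY (hRS u hu) (hRS v hv), g.normY hu hv, ← R.map_sub, R.norm_map]
    have ru := g.rho hu
    have rv := g.rho hv
    have e1 : |ε * h (R u) - ε * h u| ≤ C * ε * τ := by
      rw [← mul_sub, abs_mul, abs_of_pos hε]
      have := g.hl _ (hRS u hu) _ hu
      have h2 := hτ u hu
      calc ε * |h (R u) - h u| ≤ ε * (C * ‖R u - u‖) := by gcongr
        _ ≤ ε * (C * τ) := by gcongr
        _ = _ := by ring
    have e2 : |ε * h (R v) - ε * h v| ≤ C * ε * τ := by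
      rw [← mul_sub, abs_mul, abs_of_pos hε]
      have := g.hl _ (hRS v hv) _ hv
      have h2 := hτ v hv
      calc ε * |h (R v) - h v| ≤ ε * (C * ‖R v - v‖) := by gcongr
        _ ≤ ε * (C * τ) := by gcongr
        _ = _ := by ring
    have e3 : |(ε * h (R u) - ε * h u) - (ε * h (R v) - ε * h v)| ≤ C * ε * τ * ‖u - v‖ := by
      have e : (ε * h (R u) - ε * h u) - (ε * h (R v) - ε * h v) =
          ε * ((h (R u) - h u) - (h (R v) - h v)) := by ring
      rw [e, abs_mul, abs_of_pos hε]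
      have := hR u hu v hv
      calc ε * |(h (R u) - h u) - (h (R v) - h v)| ≤ ε * (C * τ * ‖u - v‖) := by gcongr
        _ = _ := by ring
    have ru' := g.rho (hRS u hu)
    have rv' := g.rho (hRS v hv)
    set k := C * ε * τ with hk
    have hk0 : 0 ≤ k := by positivity
    have e6 : (1 + 6 * C * ε * τ) = 1 + 6 * k := by rw [hk]; ring
    rw [e6]
    set a := 1 + ε * h u with ha
    set b := 1 + ε * h v with hb
    set a' := 1 + ε * h (R u) with ha'
    set b' := 1 + ε * h (R v) with hb'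
    set d := ‖u - v‖ with hd
    have hd0 : 0 ≤ d := norm_nonneg _
    have f1 : |(a' - b') - (a - b)| ≤ k * d := by
      have : (a' - b') - (a - b) = (ε * h (R u) - ε * h u) - (ε * h (R v) - ε * h v) := by
        rw [ha, hb, ha', hb']; ring
      rw [this]; exact e3
    have f2 : a' ≤ a * (1 + 2 * k) := by
      rw [abs_le] at e1
      have : a' ≤ a + k := by rw [ha', ha]; linarith [e1.2]
      nlinarith
    have f3 : b' ≤ b * (1 + 2 * k) := by
      rw [abs_le] at e2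
      have : b' ≤ b + k := by rw [hb', hb]; linarith [e2.2]
      nlinarith
    exact alg_rot a b a' b' d k ru.1 rv.1 (by linarith) (by linarith) hk0 hd0 f1 f2 f3
  have key := idist_map A f (Real.toNNReal (1 + 6 * C * ε * τ)) (by
      rw [Ne, Real.toNNReal_eq_zero, not_le]
      have : 0 ≤ 6 * C * ε * τ := by positivity
      linarith) hlip (by
      intro z hz
      rw [hA] at hz ⊢
      obtain ⟨u, hu, rfl⟩ := hz
      rw [hfY u hu]
      exact ⟨R u, hRS u hu, rfl⟩) (Y h ε x) (Y h ε y)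
  rw [hfY x hx, hfY y hy] at key
  exact key

end surf

end Pool.Agent.W327.ST
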